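import Mathlib

/-!
# Every rational number greater than `1` is the betweenness of a betweenness-uniform graph

For a rational `q = a / b > 1` put `N = 2 a b`.  Let `H` be the disjoint union of
`4 a ^ 2 (b ^ 2 - 1)` stars `K_{1, N ^ 2 - 1}` and of `1 + 4 a ^ 2 b (a - b)` copies of `K_{N, N}`.
The complement of `H` is connected, has diameter `2`, and every vertex of it has betweenness
exactly `q`.
-/

set_option autoImplicit false

namespace Pool.Agent.Results.MP_8f6c4c_co.AllRationals

open Finset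

/-- The set of shortest paths from `s` to `t` in `G`. -/
def shortestPaths {V : Type} (G : SimpleGraph V) (s t : V) : Set (G.Walk s t) :=
  {p | p.IsPath ∧ p.length = G.dist s t}

/-- The number of shortest paths from `s` to `t`. -/
noncomputable def pathCount {V : Type} (G : SimpleGraph V) (s t : V) : ℕ :=
  (shortestPaths G s t).ncard

/-- The number of shortest paths from `s` to `t` that pass through `v`. -/
noncomputable def pathCountThrough {V : Type} (G : SimpleGraph V) (s t v : V) : ℕ :=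
  {p ∈ shortestPaths G s t | v ∈ p.support}.ncard

open Classical in
/-- Betweenness of a vertex: half of the sum, over all ordered pairs `(s, t)` of distinct vertices
different from `v`, of the proportion of shortest `s`-`t` paths through `v`; that is, the sum over
unordered pairs. -/
noncomputable def betweenness {V : Type} [Fintype V] (G : SimpleGraph V) (v : V) : ℝ :=
  (∑ s, ∑ t, if s ≠ t ∧ s ≠ v ∧ t ≠ v then
    (pathCountThrough G s t v : ℝ) / (pathCount G s t : ℝ) else 0) / 2

/-- `α` is the betweenness of some betweenness-uniform graph (finite, simple, connected, with all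
vertices of betweenness `α`). -/
def IsBUGValue (α : ℝ) : Prop :=
  ∃ (V : Type) (_ : Fintype V) (G : SimpleGraph V), G.Connected ∧ ∀ v, betweenness G v = α

/-! ### Shortest paths in a graph of diameter two -/

lemma isPath_of_length_two {V : Type} (G : SimpleGraph V) {s t : V} (hst : s ≠ t)
    (p : G.Walk s t) (hp : p.length = 2) : p.IsPath := by
  match p, hp with
  | .cons h1 (.cons h2 .nil), _ =>
    rw [SimpleGraph.Walk.isPath_def]
    simp [h1.ne, h2.ne, hst]

lemma snd_injOn {V : Type} (G : SimpleGraph V) (s t : V) :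
    Set.InjOn (fun p : G.Walk s t => p.snd) {p | p.length = 2} := by
  intro p hp q hq hpq
  have h := (G.walkLengthTwoEquivCommonNeighbors s t).injective
    (a₁ := ⟨p, hp⟩) (a₂ := ⟨q, hq⟩) (Subtype.ext hpq)
  exact congrArg Subtype.val h

lemma support_length_two {V : Type} (G : SimpleGraph V) {s t v : V} (hs : s ≠ v) (ht : t ≠ v)
    (p : G.Walk s t) (hp : p.length = 2) : v ∈ p.support ↔ p.snd = v := by
  match p, hp with
  | .cons h1 (.cons h2 .nil), _ =>
    simp [hs.symm, ht.symm, eq_comm]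

lemma snd_image {V : Type} (G : SimpleGraph V) (s t : V) :
    (fun p : G.Walk s t => p.snd) '' {p | p.length = 2} = G.commonNeighbors s t := by
  ext w
  constructor
  · rintro ⟨p, hp, rfl⟩
    exact ((G.walkLengthTwoEquivCommonNeighbors s t) ⟨p, hp⟩).2
  · intro hw
    refine ⟨((G.walkLengthTwoEquivCommonNeighbors s t).symm ⟨w, hw⟩).1,
      ((G.walkLengthTwoEquivCommonNeighbors s t).symm ⟨w, hw⟩).2, ?_⟩
    have := (G.walkLengthTwoEquivCommonNeighbors s t).apply_symm_apply ⟨w, hw⟩
    exact congrArg Subtype.val this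

lemma shortestPaths_dist_two {V : Type} (G : SimpleGraph V) {s t : V} (hst : s ≠ t)
    (hd : G.dist s t = 2) : shortestPaths G s t = {p | p.length = 2} := by
  ext p
  unfold shortestPaths
  rw [Set.mem_ofPred_eq, Set.mem_ofPred_eq, hd]
  exact ⟨fun h => h.2, fun h => ⟨isPath_of_length_two G hst p h, h⟩⟩

lemma pathCount_dist_two {V : Type} (G : SimpleGraph V) {s t : V} (hst : s ≠ t)
    (hd : G.dist s t = 2) : pathCount G s t = (G.commonNeighbors s t).ncard := by
  unfold pathCount
  rw [shortestPaths_dist_two G hst hd, ← snd_image, (snd_injOn G s t).ncard_image]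

lemma pathCountThrough_dist_two {V : Type} (G : SimpleGraph V) {s t v : V} (hst : s ≠ t)
    (hs : s ≠ v) (ht : t ≠ v) (hd : G.dist s t = 2) [Decidable (v ∈ G.commonNeighbors s t)] :
    pathCountThrough G s t v = if v ∈ G.commonNeighbors s t then 1 else 0 := by
  unfold pathCountThrough
  rw [shortestPaths_dist_two G hst hd]
  have h1 : {p ∈ ({p | p.length = 2} : Set (G.Walk s t)) | v ∈ p.support}.ncard
      = ((fun p : G.Walk s t => p.snd) ''
        {p ∈ ({p | p.length = 2} : Set (G.Walk s t)) | v ∈ p.support}).ncard := by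
    rw [Set.InjOn.ncard_image]
    exact (snd_injOn G s t).mono (fun p hp => hp.1)
  rw [h1]
  split_ifs with hv
  · rw [Set.ncard_eq_one]
    refine ⟨v, ?_⟩
    ext w
    constructor
    · rintro ⟨p, ⟨hp, hvp⟩, rfl⟩
      exact (support_length_two G hs ht p hp).1 hvp
    · rintro rfl
      rw [← snd_image] at hv
      obtain ⟨p, hp, hpw⟩ := hv
      exact ⟨p, ⟨hp, (support_length_two G hs ht p hp).2 hpw⟩, hpw⟩
  · have h2 : {p ∈ ({p | p.length = 2} : Set (G.Walk s t)) | v ∈ p.support} = ∅ := by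
      rw [Set.eq_empty_iff_forall_notMem]
      rintro p ⟨hp, hvp⟩
      apply hv
      rw [← snd_image]
      exact ⟨p, hp, (support_length_two G hs ht p hp).1 hvp⟩
    rw [h2, Set.image_empty, Set.ncard_empty]

lemma pathCountThrough_adj {V : Type} (G : SimpleGraph V) {s t v : V} (hst : G.Adj s t)
    (hs : s ≠ v) (ht : t ≠ v) : pathCountThrough G s t v = 0 := by
  have hd : G.dist s t = 1 := SimpleGraph.dist_eq_one_iff_adj.2 hst
  unfold pathCountThrough
  have : {p ∈ shortestPaths G s t | v ∈ p.support} = ∅ := by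
    rw [Set.eq_empty_iff_forall_notMem]
    rintro p ⟨⟨_, hp⟩, hv⟩
    rw [hd] at hp
    match p, hp with
    | .cons h1 .nil, _ =>
      simp at hv
      rcases hv with h | h
      · exact hs h.symm
      · exact ht h.symm
  rw [this, Set.ncard_empty]

/-! ### The complement of a disjoint union of complete bipartite graphs -/

section Construction

variable {I : Type} (A B : I → ℕ)

/-- The vertices: component `i` has sides of sizes `A i` and `B i`. -/
abbrev Vert : Type := Σ i : I, Fin (A i) ⊕ Fin (B i)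

/-- The complement of the disjoint union of the complete bipartite graphs `K_{A i, B i}`. -/
def theGraph : SimpleGraph (Vert A B) where
  Adj x y := x ≠ y ∧ ¬ (x.1 = y.1 ∧ x.2.isLeft ≠ y.2.isLeft)
  symm := ⟨fun _ _ h => ⟨h.1.symm, fun h' => h.2 ⟨h'.1.symm, h'.2.symm⟩⟩⟩
  loopless := ⟨fun _ h => h.1 rfl⟩

lemma adj_iff (x y : Vert A B) :
    (theGraph A B).Adj x y ↔ x ≠ y ∧ ¬ (x.1 = y.1 ∧ x.2.isLeft ≠ y.2.isLeft) := Iff.rfl

lemma adj_of_ne (x y : Vert A B) (h : x.1 ≠ y.1) : (theGraph A B).Adj x y :=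
  ⟨fun h' => h (by rw [h']), fun h' => h h'.1⟩

variable {A B}

lemma connected (hne : Nonempty I) (h : ∀ i : I, ∃ w : Vert A B, w.1 ≠ i) :
    (theGraph A B).Connected := by
  have hpre : (theGraph A B).Preconnected := by
    intro x y
    by_cases hxy : x.1 = y.1
    · obtain ⟨w, hw⟩ := h x.1
      exact (adj_of_ne A B x w hw.symm).reachable.trans
        (adj_of_ne A B w y (by rw [← hxy]; exact hw)).reachable
    · exact (adj_of_ne A B x y hxy).reachable
  obtain ⟨i⟩ := hne
  obtain ⟨w, _⟩ := h i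
  exact { preconnected := hpre, nonempty := ⟨w⟩ }

lemma common (s t : Vert A B) (h1 : s.1 = t.1) (h2 : s.2.isLeft ≠ t.2.isLeft) :
    (theGraph A B).commonNeighbors s t = {w | w.1 ≠ s.1} := by
  ext w
  rw [SimpleGraph.mem_commonNeighbors, adj_iff, adj_iff, Set.mem_ofPred_eq]
  constructor
  · rintro ⟨⟨_, h3⟩, ⟨_, h4⟩⟩ hw
    have h5 : s.2.isLeft = w.2.isLeft := by
      by_contra hc
      exact h3 ⟨hw.symm, hc⟩
    have h6 : t.2.isLeft = w.2.isLeft := by
      by_contra hc
      exact h4 ⟨by rw [← h1, hw], hc⟩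
    exact h2 (h5.trans h6.symm)
  · intro hw
    refine ⟨⟨fun h => hw (by rw [h]), fun h => hw h.1.symm⟩,
      ⟨fun h => hw (by rw [← h, h1]), fun h => hw (by rw [← h.1, h1])⟩⟩

lemma dist_two (h : ∀ i : I, ∃ w : Vert A B, w.1 ≠ i) (s t : Vert A B)
    (h1 : s.1 = t.1) (h2 : s.2.isLeft ≠ t.2.isLeft) : (theGraph A B).dist s t = 2 := by
  have hne : s ≠ t := fun hst => h2 (by rw [hst])
  have hnadj : ¬ (theGraph A B).Adj s t := fun hadj => hadj.2 ⟨h1, h2⟩
  have hconn := connected ⟨s.1⟩ h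
  have h3 := hconn.one_lt_dist_of_ne_of_not_adj hne hnadj
  obtain ⟨w, hw⟩ := h s.1
  have h4 := SimpleGraph.dist_le (SimpleGraph.Walk.cons (adj_of_ne A B s w hw.symm)
    (SimpleGraph.Walk.cons (adj_of_ne A B w t (by rw [← h1]; exact hw)) SimpleGraph.Walk.nil))
  simp at h4
  omega

variable [Fintype I] [DecidableEq I]

/-- The number of vertices outside component `i`. -/
noncomputable def outside {I : Type} (A B : I → ℕ) (i : I) : ℕ := {w : Vert A B | w.1 ≠ i}.ncard

open Classical in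
lemma betw_eq (h : ∀ i : I, ∃ w : Vert A B, w.1 ≠ i) (v : Vert A B) :
    betweenness (theGraph A B) v = (∑ s : Vert A B, ∑ t : Vert A B,
      if s.1 = t.1 ∧ s.2.isLeft ≠ t.2.isLeft ∧ v.1 ≠ s.1
        then 1 / (outside A B s.1 : ℝ) else 0) / 2 := by
  unfold betweenness
  congr 1
  refine Finset.sum_congr rfl fun s _ => Finset.sum_congr rfl fun t _ => ?_
  by_cases h0 : s ≠ t ∧ s ≠ v ∧ t ≠ v
  · obtain ⟨hst, hs, ht⟩ := h0
    rw [if_pos ⟨hst, hs, ht⟩]
    by_cases hadj : (theGraph A B).Adj s t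
    · rw [pathCountThrough_adj _ hadj hs ht, if_neg]
      · simp
      · rintro ⟨h1, h2, _⟩
        exact hadj.2 ⟨h1, h2⟩
    · have hh : s.1 = t.1 ∧ s.2.isLeft ≠ t.2.isLeft := by
        by_contra hc
        exact hadj ⟨hst, hc⟩
      have hd := dist_two h s t hh.1 hh.2
      have hmem : v ∈ (theGraph A B).commonNeighbors s t ↔ v.1 ≠ s.1 := by
        rw [common s t hh.1 hh.2]
        rfl
      rw [pathCountThrough_dist_two _ hst hs ht hd, pathCount_dist_two _ hst hd]
      by_cases hv : v.1 ≠ s.1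
      · rw [if_pos (hmem.2 hv), if_pos ⟨hh.1, hh.2, hv⟩, common s t hh.1 hh.2]
        simp [outside]
      · rw [if_neg (fun hc => hv (hmem.1 hc)), if_neg (fun hc => hv hc.2.2)]
        simp
  · rw [if_neg h0, if_neg]
    rintro ⟨h1, h2, h3⟩
    exact h0 ⟨fun hc => h2 (by rw [hc]), fun hc => h3 (by rw [hc]),
      fun hc => h3 (by rw [h1, hc])⟩

open Classical in
lemma inner_sum (v s : Vert A B) (c : ℝ) :
    (∑ t : Vert A B, if s.1 = t.1 ∧ s.2.isLeft ≠ t.2.isLeft ∧ v.1 ≠ s.1 then c else 0)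
      = if v.1 ≠ s.1 then (if s.2.isLeft then (B s.1 : ℝ) * c else (A s.1 : ℝ) * c) else 0 := by
  obtain ⟨i, a⟩ := s
  by_cases hv : v.1 ≠ i
  · rw [if_pos hv, Fintype.sum_sigma, Finset.sum_eq_single i]
    · rw [Fintype.sum_sum_type]
      cases a with
      | inl a => simp [hv]
      | inr a => simp [hv]
    · intro j _ hj
      refine Finset.sum_eq_zero fun b _ => ?_
      rw [if_neg]
      exact fun hc => hj hc.1.symm
    · intro hc
      exact absurd (Finset.mem_univ _) hc
  · rw [if_neg hv]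
    refine Finset.sum_eq_zero fun b _ => ?_
    rw [if_neg]
    exact fun hc => hv hc.2.2

open Classical in
lemma betw_const (h : ∀ i : I, ∃ w : Vert A B, w.1 ≠ i) (c : ℝ)
    (hc : ∀ i, (A i : ℝ) * (B i : ℝ) / (outside A B i : ℝ) = c) (v : Vert A B) :
    betweenness (theGraph A B) v = ((Fintype.card I : ℝ) - 1) * c := by
  rw [betw_eq h v]
  simp only [inner_sum]
  rw [Fintype.sum_sigma]
  have h1 : ∀ i : I, (∑ y : Fin (A i) ⊕ Fin (B i),
      if v.1 ≠ i then (if y.isLeft then (B i : ℝ) * (1 / (outside A B i : ℝ))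
        else (A i : ℝ) * (1 / (outside A B i : ℝ))) else 0)
      = if v.1 ≠ i then 2 * c else 0 := by
    intro i
    by_cases hv : v.1 ≠ i
    · simp only [if_pos hv]
      rw [Fintype.sum_sum_type, ← hc i]
      simp
      ring
    · simp only [if_neg hv]
      simp
  simp only [h1]
  rw [← Finset.sum_filter, Finset.sum_const, Finset.filter_ne, Finset.card_erase_of_mem
    (Finset.mem_univ _), Finset.card_univ, nsmul_eq_mul,
    Nat.cast_sub (Fintype.card_pos_iff.2 ⟨v.1⟩)]
  push_cast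
  ring

lemma outside_eq (i : I) :
    (outside A B i : ℝ) = (∑ j, ((A j : ℝ) + (B j : ℝ))) - ((A i : ℝ) + (B i : ℝ)) := by
  classical
  unfold outside
  rw [Set.ncard_eq_toFinset_card', Set.toFinset_ofPred, Finset.card_filter]
  push_cast
  rw [Fintype.sum_sigma]
  have h1 : ∀ j : I, (∑ y : Fin (A j) ⊕ Fin (B j), if (j ≠ i) then (1 : ℝ) else 0)
      = if j ≠ i then ((A j : ℝ) + (B j : ℝ)) else 0 := by
    intro j
    by_cases hj : j ≠ i
    · simp [hj]
    · simp [hj]
  rw [Finset.sum_congr rfl fun j _ => h1 j, ← Finset.sum_filter, Finset.filter_ne',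
    ← Finset.sum_erase_add _ _ (Finset.mem_univ i)]
  ring

end Construction

/-! ### The main theorem -/

lemma rational_of_bug (α : ℝ) (h : IsBUGValue α) : ∃ q : ℚ, (q : ℝ) = α := by
  classical
  obtain ⟨V, _, G, hconn, hα⟩ := h
  obtain ⟨v⟩ := hconn.nonempty
  refine ⟨(∑ s, ∑ t, if s ≠ t ∧ s ≠ v ∧ t ≠ v then
    (pathCountThrough G s t v : ℚ) / (pathCount G s t : ℚ) else 0) / 2, ?_⟩
  rw [← hα v, betweenness]
  push_cast
  congr 1
  refine Finset.sum_congr rfl fun s _ => Finset.sum_congr rfl fun t _ => ?_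
  split_ifs <;> simp

/-- The number of stars and of balanced components, and the parameter `N`. -/
lemma bug_of_rational (a b : ℕ) (hb : 0 < b) (hab : b < a) : IsBUGValue ((a : ℝ) / (b : ℝ)) := by
  classical
  set N : ℕ := 2 * a * b with hN
  set k1 : ℕ := 4 * a ^ 2 * (b ^ 2 - 1) with hk1
  set k2 : ℕ := 1 + 4 * a ^ 2 * b * (a - b) with hk2
  have hN4 : 4 ≤ N := by
    rw [hN]
    have h1 : 2 ≤ a := by omega
    nlinarith
  set A : Fin k1 ⊕ Fin k2 → ℕ := Sum.elim (fun _ => 1) (fun _ => N) with hA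
  set B : Fin k1 ⊕ Fin k2 → ℕ := Sum.elim (fun _ => N ^ 2 - 1) (fun _ => N) with hB
  have hk2' : 2 ≤ k2 := by
    rw [hk2]
    have h1 : 1 ≤ a - b := by omega
    have h2 : 1 ≤ 4 * a ^ 2 * b * (a - b) := by
      have : 0 < 4 * a ^ 2 * b * (a - b) := by
        have ha : 0 < a := by omega
        positivity
      omega
    omega
  have hw : ∀ i : Fin k1 ⊕ Fin k2, ∃ w : Vert A B, w.1 ≠ i := by
    intro i
    by_cases hi : i = Sum.inr ⟨0, by omega⟩
    · refine ⟨⟨Sum.inr ⟨1, by omega⟩, Sum.inl ⟨0, by simp [hA]; omega⟩⟩, ?_⟩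
      rw [hi]
      simp
    · exact ⟨⟨Sum.inr ⟨0, by omega⟩, Sum.inl ⟨0, by simp [hA]; omega⟩⟩, fun hc => hi hc.symm⟩
  have hbR : (0 : ℝ) < b := by exact_mod_cast hb
  have haR : (0 : ℝ) < a := by exact_mod_cast (by omega : 0 < a)
  have hNR : (N : ℝ) = 2 * a * b := by rw [hN]; push_cast; ring
  have hN4R : (4 : ℝ) ≤ N := by exact_mod_cast hN4
  have hk1R : (k1 : ℝ) = 4 * (a : ℝ) ^ 2 * ((b : ℝ) ^ 2 - 1) := by
    rw [hk1]
    rw [Nat.cast_mul, Nat.cast_sub (Nat.one_le_pow _ _ hb)]
    push_cast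
    ring
  have hk2R : (k2 : ℝ) = 1 + 4 * (a : ℝ) ^ 2 * b * (a - b) := by
    rw [hk2]
    rw [Nat.cast_add, Nat.cast_mul, Nat.cast_sub hab.le]
    push_cast
    ring
  have htot : (∑ j, ((A j : ℝ) + (B j : ℝ))) = k1 * (N : ℝ) ^ 2 + k2 * (2 * N) := by
    rw [Fintype.sum_sum_type]
    simp only [hA, hB, Sum.elim_inl, Sum.elim_inr]
    rw [Finset.sum_const, Finset.sum_const, Finset.card_univ, Finset.card_univ, Fintype.card_fin,
      Fintype.card_fin, nsmul_eq_mul, nsmul_eq_mul,
      Nat.cast_sub (Nat.one_le_pow _ _ (by omega : 0 < N))]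
    push_cast
    ring
  have hcard : (Fintype.card (Fin k1 ⊕ Fin k2) : ℝ) = k1 + k2 := by
    rw [Fintype.card_sum, Fintype.card_fin, Fintype.card_fin]
    push_cast
    ring
  have hpos : (0 : ℝ) < N * (N - 2) := by
    apply mul_pos <;> linarith
  have hc : ∀ i, (A i : ℝ) * (B i : ℝ) / (outside A B i : ℝ) = 1 / (N * (N - 2)) := by
    intro i
    rw [outside_eq, htot, hk1R, hk2R]
    rcases i with i | i
    · simp only [hA, hB, Sum.elim_inl]
      rw [Nat.cast_sub (Nat.one_le_pow _ _ (by omega : 0 < N))]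
      push_cast
      have h1 : 4 * (a : ℝ) ^ 2 * ((b : ℝ) ^ 2 - 1) * (N : ℝ) ^ 2
          + (1 + 4 * (a : ℝ) ^ 2 * b * (a - b)) * (2 * N) - (1 + ((N : ℝ) ^ 2 - 1))
          = ((N : ℝ) ^ 2 - 1) * (N * (N - 2)) := by
        rw [hNR]; ring
      rw [h1]
      have h2 : (0 : ℝ) < (N : ℝ) ^ 2 - 1 := by nlinarith
      field_simp
    · simp only [hA, hB, Sum.elim_inr]
      have h1 : 4 * (a : ℝ) ^ 2 * ((b : ℝ) ^ 2 - 1) * (N : ℝ) ^ 2
          + (1 + 4 * (a : ℝ) ^ 2 * b * (a - b)) * (2 * N) - ((N : ℝ) + N)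
          = (N : ℝ) ^ 2 * (N * (N - 2)) := by
        rw [hNR]; ring
      rw [h1]
      have h2 : (0 : ℝ) < (N : ℝ) := by linarith
      field_simp
  refine ⟨Vert A B, inferInstance, theGraph A B, connected ⟨Sum.inr ⟨0, by omega⟩⟩ hw, fun v => ?_⟩
  rw [betw_const hw _ hc v, hcard, hk1R, hk2R]
  have h1 : 4 * (a : ℝ) ^ 2 * ((b : ℝ) ^ 2 - 1) + (1 + 4 * (a : ℝ) ^ 2 * b * (a - b)) - 1
      = (a : ℝ) / b * (N * (N - 2)) := by
    rw [hNR]
    field_simp
    ring
  rw [h1, mul_one_div, mul_div_assoc, div_self hpos.ne', mul_one]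

/-- **Theorem.** The set of betweenness values greater than `1` of betweenness-uniform graphs is
the set of all rational numbers greater than `1`. -/
theorem result : {α : ℝ | 1 < α ∧ IsBUGValue α} = {α : ℝ | 1 < α ∧ ∃ q : ℚ, (q : ℝ) = α} := by
  ext α
  constructor
  · rintro ⟨h1, h2⟩
    exact ⟨h1, rational_of_bug α h2⟩
  · rintro ⟨h1, q, rfl⟩
    refine ⟨h1, ?_⟩
    have hq : (1 : ℚ) < q := by exact_mod_cast h1
    have hnum : 0 < q.num := by
      rw [Rat.num_pos]; linarith
    obtain ⟨a, ha⟩ := Int.eq_ofNat_of_zero_le hnum.le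
    have hlt : q.den < a := by
      have h2 : (q.den : ℤ) < q.num := by
        have h3 := Rat.num_div_den q
        have h4 : (0 : ℚ) < q.den := by exact_mod_cast q.pos
        rw [← h3, lt_div_iff₀ h4, one_mul] at hq
        exact_mod_cast hq
      rw [ha] at h2
      exact_mod_cast h2
    have h5 : (q : ℝ) = (a : ℝ) / (q.den : ℝ) := by
      have h6 : (q : ℝ) = (q.num : ℝ) / (q.den : ℝ) := by
        exact_mod_cast (Rat.num_div_den q).symm
      rw [h6, ha]
      simp
    rw [h5]
    exact bug_of_rational a q.den q.pos hlt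

end Pool.Agent.Results.MP_8f6c4c_co.AllRationals
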